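import Pool.Agent.Helper72.CO.Defs

/-!
# The algebraic part: sums of two elements equal to a root of a cubic polynomial
-/

set_option autoImplicit false
set_option linter.unusedSectionVars false

open Polynomial IntermediateField

namespace Pool.Agent.Helper48.CO

section core

variable {K N : Type} [Field K] [Field N] [Algebra K N] [CharZero N] [FiniteDimensional K N]
  [IsGalois K N]

/-- the roots -/
structure Rts (K : Type) {N : Type} [Field K] [Field N] [Algebra K N] (S : Fin 3 → N) : Prop where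
  inj : Function.Injective S
  stab : ∀ (σ : N ≃ₐ[K] N) (i : Fin 3), ∃ j, σ (S i) = S j
  tran : ∀ i : Fin 3, ∃ σ : N ≃ₐ[K] N, σ (S 0) = S i

variable {S : Fin 3 → N}

lemma Rts.perm (h : Rts K S) (σ : N ≃ₐ[K] N) :
    ∃ π : Equiv.Perm (Fin 3), ∀ i, σ (S i) = S (π i) := by
  choose f hf using h.stab σ
  have hinj : Function.Injective f := by
    intro a b hab
    apply h.inj
    apply σ.injective
    rw [hf, hf, hab]
  exact ⟨Equiv.ofBijective f (Finite.injective_iff_bijective.1 hinj), hf⟩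

lemma perm_cyc : ∀ a b : Equiv.Perm (Fin 3), a 0 = 1 → b 0 = 2 →
    a = finRotate 3 ∨ b * b = finRotate 3 ∨ b * a = finRotate 3 := by
  decide

/-- there is an automorphism that acts as a `3`-cycle -/
lemma Rts.cyc (h : Rts K S) : ∃ ρ : N ≃ₐ[K] N, ρ (S 0) = S 1 ∧ ρ (S 1) = S 2 ∧ ρ (S 2) = S 0 := by
  have key : ∀ ρ : N ≃ₐ[K] N, (∀ i, ρ (S i) = S (finRotate 3 i)) →
      ρ (S 0) = S 1 ∧ ρ (S 1) = S 2 ∧ ρ (S 2) = S 0 := fun ρ hρ => ⟨hρ 0, hρ 1, hρ 2⟩
  obtain ⟨σ, hσ⟩ := h.tran 1
  obtain ⟨τ, hτ⟩ := h.tran 2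
  obtain ⟨a, ha⟩ := h.perm σ
  obtain ⟨b, hb⟩ := h.perm τ
  have ha0 : a 0 = 1 := h.inj (by rw [← ha, hσ])
  have hb0 : b 0 = 2 := h.inj (by rw [← hb, hτ])
  rcases perm_cyc a b ha0 hb0 with h1 | h1 | h1
  · exact ⟨σ, key σ (by rw [← h1]; exact ha)⟩
  · refine ⟨τ * τ, key _ fun i => ?_⟩
    rw [← h1, AlgEquiv.mul_apply, hb, hb, Equiv.Perm.mul_apply]
  · refine ⟨τ * σ, key _ fun i => ?_⟩
    rw [← h1, AlgEquiv.mul_apply, ha, hb, Equiv.Perm.mul_apply]

/-- linear independence over the rational numbers, up to the sum -/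
lemma Rts.li (h : Rts K S) (c : Fin 3 → ℚ)
    (hc : ∀ σ : N ≃ₐ[K] N, σ (∑ j, (c j : N) * S j) = ∑ j, (c j : N) * S j) :
    c 0 = c 1 ∧ c 1 = c 2 := by
  obtain ⟨ρ, h0, h1, h2⟩ := h.cyc
  have e := hc ρ
  rw [Fin.sum_univ_three] at e
  simp only [map_add, map_mul, map_ratCast, h0, h1, h2] at e
  have e' := congrArg ρ e
  simp only [map_add, map_mul, map_ratCast, h0, h1, h2] at e'
  have hu : S 0 - S 2 ≠ 0 := by
    rw [sub_ne_zero]
    intro h3
    exact absurd (h.inj h3) (by decide)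
  have hm : (((c 0 - c 2) ^ 2 + (c 0 - c 2) * (c 1 - c 0) + (c 1 - c 0) ^ 2 : ℚ) : N) *
      (S 0 - S 2) = 0 := by
    push_cast
    linear_combination ((c 0 : N) - c 2) * (-e) - ((c 1 : N) - c 0) * (-e')
  rcases mul_eq_zero.1 hm with h3 | h3
  · have h4 : (c 0 - c 2) ^ 2 + (c 0 - c 2) * (c 1 - c 0) + (c 1 - c 0) ^ 2 = 0 := by
      exact_mod_cast h3
    have h5 : c 0 - c 2 = 0 := by nlinarith [sq_nonneg (c 0 - c 2 + 2 * (c 1 - c 0)), sq_nonneg (c 0 - c 2)]
    have h6 : c 1 - c 0 = 0 := by nlinarith [sq_nonneg (2 * (c 0 - c 2) + (c 1 - c 0)), sq_nonneg (c 1 - c 0)]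
    constructor
    · linarith
    · linarith
  · exact absurd h3 hu

/-- a root with a coefficient different from the two others -/
lemma Rts.coef (h : Rts K S) (k : K) (a : Fin 3 → ℚ) (i : Fin 3) (hi : ∀ j, j ≠ i → a j ≠ a i)
    {Y : N} (hY : Y = algebraMap K N k + ∑ j, (a j : N) * S j) : S i ∈ K⟮Y⟯ := by
  rw [← IsGalois.fixedField_fixingSubgroup K⟮Y⟯, mem_fixedField_iff]
  intro σ hσ
  rw [IntermediateField.mem_fixingSubgroup_iff] at hσ
  have h1 : σ Y = Y := hσ Y (mem_adjoin_simple_self K Y)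
  obtain ⟨π, hπ⟩ := h.perm σ
  have h2 : ∑ j, (a j : N) * S (π j) = ∑ j, (a j : N) * S j := by
    rw [hY, map_add, map_sum, AlgEquiv.commutes] at h1
    simp only [map_mul, map_ratCast, hπ] at h1
    exact add_left_cancel h1
  have h3 : ∑ j, (a j : N) * S (π j) = ∑ j, (a (π.symm j) : N) * S j := by
    rw [← Equiv.sum_comp π (fun j => (a (π.symm j) : N) * S j)]
    simp only [Equiv.symm_apply_apply]
  have h4 : ∑ j, ((a (π.symm j) - a j : ℚ) : N) * S j = 0 := by
    have : ∀ j, ((a (π.symm j) - a j : ℚ) : N) * S j =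
        (a (π.symm j) : N) * S j - (a j : N) * S j := fun j => by
      push_cast
      ring
    rw [Finset.sum_congr rfl fun j _ => this j, Finset.sum_sub_distrib, ← h3, h2, sub_self]
  obtain ⟨h5, h6⟩ := h.li (fun j => a (π.symm j) - a j) (fun τ => by rw [h4, map_zero])
  have h7 : ∑ j, (a (π.symm j) - a j) = 0 := by
    rw [Finset.sum_sub_distrib, Equiv.sum_comp π.symm a, sub_self]
  rw [Fin.sum_univ_three] at h7
  have h8 : ∀ j, a (π.symm j) = a j := by
    have h9 : a (π.symm 0) - a 0 = 0 := by linarith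
    have h10 : a (π.symm 1) - a 1 = 0 := by linarith
    have h11 : a (π.symm 2) - a 2 = 0 := by linarith
    intro j
    fin_cases j
    · exact sub_eq_zero.1 h9
    · exact sub_eq_zero.1 h10
    · exact sub_eq_zero.1 h11
  have h9 : π.symm i = i := by
    by_contra h10
    exact hi _ h10 (h8 i)
  rw [hπ]
  congr 1
  rw [← h9, Equiv.apply_symm_apply, h9]

/-- the group of the elements `k + ∑ c_j S_j` -/
def VV (K : Type) {N : Type} [Field K] [Field N] [Algebra K N] [CharZero N] (S : Fin 3 → N) :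
    AddSubgroup N where
  carrier := {x | ∃ (k : K) (c : Fin 3 → ℚ), x = algebraMap K N k + ∑ j, (c j : N) * S j}
  zero_mem' := ⟨0, 0, by simp⟩
  add_mem' := by
    rintro x y ⟨k, c, rfl⟩ ⟨k', c', rfl⟩
    refine ⟨k + k', c + c', ?_⟩
    simp only [map_add, Pi.add_apply, Rat.cast_add, add_mul, Finset.sum_add_distrib]
    ring
  neg_mem' := by
    rintro x ⟨k, c, rfl⟩
    refine ⟨-k, -c, ?_⟩
    simp only [map_neg, Pi.neg_apply, Rat.cast_neg, neg_mul, Finset.sum_neg_distrib]
    ring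

lemma VV_alg (k : K) : algebraMap K N k ∈ VV K S := ⟨k, 0, by simp⟩

lemma VV_S (i : Fin 3) : S i ∈ VV K S := by
  refine ⟨0, Pi.single i 1, ?_⟩
  rw [map_zero, zero_add, Finset.sum_eq_single i]
  · simp
  · intro j _ hj
    simp [Pi.single_eq_of_ne hj]
  · simp

lemma Rts.vv_map (h : Rts K S) (σ : N ≃ₐ[K] N) {x : N} (hx : x ∈ VV K S) : σ x ∈ VV K S := by
  obtain ⟨k, c, rfl⟩ := hx
  obtain ⟨π, hπ⟩ := h.perm σ
  refine ⟨k, fun j => c (π.symm j), ?_⟩
  rw [map_add, map_sum, AlgEquiv.commutes]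
  simp only [map_mul, map_ratCast, hπ]
  congr 1
  rw [← Equiv.sum_comp π (fun j => (c (π.symm j) : N) * S j)]
  simp only [Equiv.symm_apply_apply]

lemma VV_rat {x : N} (q : ℚ) (hx : x ∈ VV K S) [CharZero K] : (q : N) * x ∈ VV K S := by
  obtain ⟨k, c, rfl⟩ := hx
  refine ⟨q * k, fun j => q * c j, ?_⟩
  rw [map_mul, map_ratCast, mul_add, Finset.mul_sum]
  congr 1
  refine Finset.sum_congr rfl fun j _ => ?_
  push_cast
  ring

/-- all the differences are in the group -/
lemma Rts.diff (h : Rts K S) {F G : N} (hFG : F + G = S 0)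
    (hi : ∀ x ∈ K⟮F⟯, x ∈ K⟮G⟯ → x ∈ (⊥ : IntermediateField K N)) (σ : N ≃ₐ[K] N) :
    σ F - F ∈ VV K S := by
  let T : Subgroup (N ≃ₐ[K] N) :=
    { carrier := {σ | σ F - F ∈ VV K S}
      one_mem' := by
        show F - F ∈ VV K S
        rw [sub_self]
        exact zero_mem _
      mul_mem' := by
        intro a b ha hb
        show a (b F) - F ∈ VV K S
        have e : a (b F) - F = a (b F - F) + (a F - F) := by
          rw [map_sub]
          ring
        rw [e]
        exact add_mem (h.vv_map a hb) ha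
      inv_mem' := by
        intro a ha
        show a⁻¹ F - F ∈ VV K S
        have e : a⁻¹ F - F = -(a⁻¹ (a F - F)) := by
          have : a⁻¹ (a F) = F := by
            rw [← AlgEquiv.mul_apply, inv_mul_cancel]
            rfl
          rw [map_sub, this]
          ring
        rw [e]
        exact neg_mem (h.vv_map _ ha) }
  have hT : T = ⊤ := by
    rw [eq_top_iff, ← fixingSubgroup_bot, ← fixingSubgroup_fixedField T]
    apply IntermediateField.fixingSubgroup_antitone
    intro x hx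
    refine hi x ?_ ?_
    · rw [← IsGalois.fixedField_fixingSubgroup K⟮F⟯]
      refine fixedField_antitone ?_ hx
      intro τ hτ
      rw [IntermediateField.mem_fixingSubgroup_iff] at hτ
      show τ F - F ∈ VV K S
      rw [hτ F (mem_adjoin_simple_self K F), sub_self]
      exact zero_mem _
    · rw [← IsGalois.fixedField_fixingSubgroup K⟮G⟯]
      refine fixedField_antitone ?_ hx
      intro τ hτ
      rw [IntermediateField.mem_fixingSubgroup_iff] at hτ
      show τ F - F ∈ VV K S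
      have e : F = S 0 - G := by rw [← hFG]; ring
      have e2 : τ F - F = τ (S 0) - S 0 := by
        rw [e, map_sub, hτ G (mem_adjoin_simple_self K G)]
        ring
      rw [e2]
      exact sub_mem (h.vv_map τ (VV_S 0)) (VV_S 0)
  have : σ ∈ T := by rw [hT]; exact Subgroup.mem_top σ
  exact this

/-- the summand is in the group -/
lemma Rts.mem (h : Rts K S) [CharZero K] {F G : N} (hFG : F + G = S 0)
    (hi : ∀ x ∈ K⟮F⟯, x ∈ K⟮G⟯ → x ∈ (⊥ : IntermediateField K N)) : F ∈ VV K S := by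
  classical
  have hn : (Fintype.card (N ≃ₐ[K] N) : N) ≠ 0 := by
    rw [Nat.cast_ne_zero]
    exact Fintype.card_ne_zero
  have h1 : ∑ σ : N ≃ₐ[K] N, (σ F - F) ∈ VV K S := sum_mem fun σ _ => h.diff hFG hi σ
  have h2 : ∑ σ : N ≃ₐ[K] N, σ F ∈ VV K S := by
    have h3 : ∑ σ : N ≃ₐ[K] N, σ F ∈ (⊥ : IntermediateField K N) := by
      rw [IsGalois.mem_bot_iff_fixed]
      intro τ
      rw [map_sum]
      exact Equiv.sum_comp (Equiv.mulLeft τ) (fun σ : N ≃ₐ[K] N => σ F)
    rw [mem_bot] at h3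
    obtain ⟨k, hk⟩ := h3
    rw [← hk]
    exact VV_alg k
  have h3 : F = ((1 / (Fintype.card (N ≃ₐ[K] N) : ℚ) : ℚ) : N) *
      (∑ σ : N ≃ₐ[K] N, σ F - ∑ σ : N ≃ₐ[K] N, (σ F - F)) := by
    rw [Finset.sum_sub_distrib, Finset.sum_const, Finset.card_univ, nsmul_eq_mul]
    push_cast
    field_simp
    ring
  rw [h3]
  exact VV_rat _ (sub_mem h2 h1)

theorem Rts.main (h : Rts K S) [CharZero K] {F G : N} (hFG : F + G = S 0)
    (hi : ∀ x ∈ K⟮F⟯, x ∈ K⟮G⟯ → x ∈ (⊥ : IntermediateField K N)) :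
    S 0 ∈ K⟮F⟯ ∨ S 0 ∈ K⟮G⟯ ∨ (S 1 ∈ K⟮G⟯ ∧ S 2 ∈ K⟮F⟯) ∨ (S 2 ∈ K⟮G⟯ ∧ S 1 ∈ K⟮F⟯) := by
  obtain ⟨k, n, hF⟩ := h.mem hFG hi
  have hG : G = algebraMap K N (-k) + ∑ j, ((((Pi.single 0 1 : Fin 3 → ℚ) - n) j : ℚ) : N) * S j := by
    have e : G = S 0 - F := by rw [← hFG]; ring
    rw [e, hF, Fin.sum_univ_three, Fin.sum_univ_three]
    simp only [Pi.sub_apply, map_neg]
    rw [Pi.single_eq_same, Pi.single_eq_of_ne (show (1 : Fin 3) ≠ 0 by decide),
      Pi.single_eq_of_ne (show (2 : Fin 3) ≠ 0 by decide)]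
    push_cast
    ring
  have g0 : ((Pi.single 0 1 : Fin 3 → ℚ) - n) 0 = 1 - n 0 := by simp
  have g1 : ((Pi.single 0 1 : Fin 3 → ℚ) - n) 1 = -n 1 := by simp
  have g2 : ((Pi.single 0 1 : Fin 3 → ℚ) - n) 2 = -n 2 := by simp
  have cF : ∀ i, (∀ j, j ≠ i → n j ≠ n i) → S i ∈ K⟮F⟯ := fun i hi => h.coef k n i hi hF
  have cG : ∀ i, (∀ j, j ≠ i → ((Pi.single 0 1 : Fin 3 → ℚ) - n) j ≠
      ((Pi.single 0 1 : Fin 3 → ℚ) - n) i) → S i ∈ K⟮G⟯ := fun i hi => h.coef _ _ i hi hG
  have f3 : ∀ (a : Fin 3 → ℚ) (i j l : Fin 3), (∀ m, m = i ∨ m = j ∨ m = l) → a j ≠ a i →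
      a l ≠ a i → ∀ m, m ≠ i → a m ≠ a i := by
    intro a i j l hm hj hl m hmi
    rcases hm m with rfl | rfl | rfl
    · exact absurd rfl hmi
    · exact hj
    · exact hl
  by_cases h1 : n 1 = n 0
  · by_cases h2 : n 2 = n 0 - 1
    · right; right; left
      constructor
      · refine cG 1 (f3 _ 1 0 2 (by decide) ?_ ?_)
        · rw [g0, g1, h1]
          intro h3
          linarith
        · rw [g2, g1, h1, h2]
          intro h3
          linarith
      · refine cF 2 (f3 _ 2 0 1 (by decide) ?_ ?_)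
        · rw [h2]
          intro h3
          linarith
        · rw [h1, h2]
          intro h3
          linarith
    · right; left
      refine cG 0 (f3 _ 0 1 2 (by decide) ?_ ?_)
      · rw [g0, g1, h1]
        intro h3
        linarith
      · rw [g0, g2]
        intro h3
        exact h2 (by linarith)
  · by_cases h2 : n 2 = n 0
    · by_cases h3 : n 1 = n 0 - 1
      · right; right; right
        constructor
        · refine cG 2 (f3 _ 2 0 1 (by decide) ?_ ?_)
          · rw [g0, g2, h2]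
            intro h3
            linarith
          · rw [g1, g2, h2, h3]
            intro h3
            linarith
        · refine cF 1 (f3 _ 1 0 2 (by decide) ?_ ?_)
          · rw [h3]
            intro h3
            linarith
          · rw [h2, h3]
            intro h3
            linarith
      · right; left
        refine cG 0 (f3 _ 0 1 2 (by decide) ?_ ?_)
        · rw [g0, g1]
          intro h4
          exact h3 (by linarith)
        · rw [g0, g2, h2]
          intro h3
          linarith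
    · left
      exact cF 0 (f3 _ 0 1 2 (by decide) h1 h2)

end core

theorem alg : Pool.Agent.Helper72.CO.S_ALG := by
  intro K Ω _ _ _ _ _ F G S hFG hF p hirr hmon hdeg hS hi
  have : CharZero Ω := charZero_of_injective_algebraMap (algebraMap K Ω).injective
  have hFint : IsIntegral K F := hF.isIntegral
  -- the roots of `p`
  have hp0 : p ≠ 0 := hirr.ne_zero
  have hsplit : (p.map (algebraMap K Ω)).Splits := IsAlgClosed.splits _
  have hroots : (p.map (algebraMap K Ω)).roots.card = 3 := by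
    rw [← hsplit.natDegree_eq_card_roots, natDegree_map, hdeg]
  have hSr : S ∈ (p.map (algebraMap K Ω)).roots := by
    rw [mem_roots (by rw [Ne, Polynomial.map_eq_zero]; exact hp0), IsRoot.def, eval_map_algebraMap]
    exact hS
  obtain ⟨t, ht⟩ := Multiset.exists_cons_of_mem hSr
  have ht2 : t.card = 2 := by
    have := hroots
    rw [ht, Multiset.card_cons] at this
    omega
  obtain ⟨S₂, S₃, rfl⟩ := Multiset.card_eq_two.1 ht2
  have hprod : p.map (algebraMap K Ω) = (X - C S) * (X - C S₂) * (X - C S₃) := by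
    have h1 := hsplit.eq_prod_roots_of_monic (hmon.map _)
    rw [ht] at h1
    rw [h1]
    simp
    ring
  have hnd : (p.map (algebraMap K Ω)).roots.Nodup :=
    nodup_roots (hirr.separable.map)
  rw [ht] at hnd
  have hne : S ≠ S₂ ∧ S ≠ S₃ ∧ S₂ ≠ S₃ := by
    simp at hnd
    tauto
  -- the field
  set r : K[X] := minpoly K F * p with hr
  have hr0 : r ≠ 0 := mul_ne_zero (minpoly.ne_zero hFint) hp0
  set N := IntermediateField.adjoin K (r.rootSet Ω) with hN
  have hsf : r.IsSplittingField K N :=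
    IntermediateField.adjoin_rootSet_isSplittingField (IsAlgClosed.splits _)
  have : FiniteDimensional K N := Polynomial.IsSplittingField.finiteDimensional N r
  have : Normal K N := Normal.of_isSplittingField r
  have : IsGalois K N := { }
  have hrt : ∀ x : Ω, aeval x p = 0 → x ∈ N := by
    intro x hx
    apply IntermediateField.subset_adjoin
    rw [mem_rootSet_of_ne hr0, hr, map_mul, hx, mul_zero]
  have hFN : F ∈ N := by
    apply IntermediateField.subset_adjoin
    rw [mem_rootSet_of_ne hr0, hr, map_mul, minpoly.aeval, zero_mul]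
  have hae : ∀ x : Ω, aeval x p = (x - S) * (x - S₂) * (x - S₃) := by
    intro x
    rw [← eval_map_algebraMap, hprod]
    simp
  have hS1 : aeval S₂ p = 0 := by rw [hae]; ring
  have hS2 : aeval S₃ p = 0 := by rw [hae]; ring
  have hSN := hrt S hS
  have hGN : G ∈ N := by
    have e : G = S - F := by rw [← hFG]; ring
    rw [e]
    exact sub_mem hSN hFN
  let T : Fin 3 → N := ![⟨S, hSN⟩, ⟨S₂, hrt _ hS1⟩, ⟨S₃, hrt _ hS2⟩]
  have hTa : ∀ i, aeval (T i) p = 0 := by
    intro i
    apply Subtype.val_injective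
    have e : ((aeval (T i) p : N) : Ω) = aeval ((T i : N) : Ω) p := by
      exact (Polynomial.aeval_algebraMap_apply Ω (T i) p).symm
    rw [e]
    fin_cases i
    · exact hS
    · exact hS1
    · exact hS2
  have hRts : Rts K T := by
    refine ⟨?_, ?_, ?_⟩
    · intro i j hij
      have hij' := congrArg (Subtype.val) hij
      fin_cases i <;> fin_cases j
      · rfl
      · exact absurd hij' hne.1
      · exact absurd hij' hne.2.1
      · exact absurd hij'.symm hne.1
      · rfl
      · exact absurd hij' hne.2.2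
      · exact absurd hij'.symm hne.2.1
      · exact absurd hij'.symm hne.2.2
      · rfl
    · intro σ i
      have h1 : aeval (σ (T i)) p = 0 := by
        have := Polynomial.aeval_algHom_apply σ.toAlgHom (T i) p
        rw [hTa, map_zero] at this
        exact this
      have h2 : aeval ((σ (T i) : N) : Ω) p = 0 := by
        have e : ((aeval (σ (T i)) p : N) : Ω) = aeval ((σ (T i) : N) : Ω) p := by
          exact (Polynomial.aeval_algebraMap_apply Ω (σ (T i)) p).symm
        rw [← e, h1]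
        rfl
      rw [hae] at h2
      rcases mul_eq_zero.1 h2 with h3 | h3
      · rcases mul_eq_zero.1 h3 with h4 | h4
        · exact ⟨0, Subtype.val_injective (sub_eq_zero.1 h4)⟩
        · exact ⟨1, Subtype.val_injective (sub_eq_zero.1 h4)⟩
      · exact ⟨2, Subtype.val_injective (sub_eq_zero.1 h3)⟩
    · intro i
      have h1 : minpoly K (T i) = minpoly K (T 0) := by
        rw [← minpoly.eq_of_irreducible_of_monic hirr (hTa i) hmon,
          ← minpoly.eq_of_irreducible_of_monic hirr (hTa 0) hmon]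
      obtain ⟨σ, hσ⟩ := (Normal.minpoly_eq_iff_mem_orbit N).1 h1
      exact ⟨σ, hσ⟩
  have hlift : ∀ x y : N, x ∈ K⟮y⟯ ↔ (x : Ω) ∈ K⟮(y : Ω)⟯ := by
    intro x y
    rw [← IntermediateField.lift_adjoin_simple, IntermediateField.mem_lift]
  have key := hRts.main (F := ⟨F, hFN⟩) (G := ⟨G, hGN⟩) (Subtype.ext hFG) (by
    intro x hx1 hx2
    rw [hlift] at hx1 hx2
    obtain ⟨k, hk⟩ := hi x hx1 hx2
    rw [mem_bot]
    exact ⟨k, Subtype.val_injective hk⟩)
  rw [hlift, hlift, hlift, hlift, hlift, hlift] at key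
  rcases key with h1 | h1 | ⟨h1, h2⟩ | ⟨h1, h2⟩
  · exact Or.inl h1
  · exact Or.inr (Or.inl h1)
  · exact Or.inr (Or.inr ⟨S₂, S₃, h1, h2, hprod⟩)
  · exact Or.inr (Or.inr ⟨S₃, S₂, h1, h2, by rw [hprod]; ring⟩)

end Pool.Agent.Helper48.CO
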